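import Pool.Agent.H5.Dem.Stmts

/-!
Module TREE of the project DEM (MP_33d618_al).
-/

set_option autoImplicit false

open Topology Filter

namespace Pool.Agent.H5.Dem

namespace TREEaux

variable {G : Type} [Group G] (ρ : G →* Equiv.Perm (List (Fin 2)))

theorem mul_app (g h : G) (v : List (Fin 2)) : ρ (g * h) v = ρ g (ρ h v) := by
  rw [map_mul]
  rfl

theorem inv_app_self (g : G) (v : List (Fin 2)) : ρ g⁻¹ (ρ g v) = v := by
  rw [← mul_app, inv_mul_cancel, map_one]
  rfl

/-- the stabiliser of `[0]` -/
def stab0 : Subgroup G where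
  carrier := {g | ρ g [0] = [0]}
  mul_mem' := by
    intro a b ha hb
    simp only [Set.mem_ofPred_eq] at *
    rw [mul_app, hb, ha]
  one_mem' := by
    simp only [Set.mem_ofPred_eq, map_one]
    rfl
  inv_mem' := by
    intro a ha
    simp only [Set.mem_ofPred_eq] at *
    conv_lhs => rw [← ha]
    rw [inv_app_self]

theorem mem_stab0 (g : G) : g ∈ stab0 ρ ↔ ρ g [0] = [0] := Iff.rfl

/-- the elements fixing all words of length at most `n` -/
def fixn (n : ℕ) : Set G := {g | ∀ v : List (Fin 2), v.length ≤ n → ρ g v = v}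

theorem level_one (hlen : ∀ g v, (ρ g v).length = v.length) (g : G) (x : Fin 2) :
    ∃ y, ρ g [x] = [y] := by
  have h1 := hlen g [x]
  simp only [List.length_singleton] at h1
  exact List.length_eq_one_iff.1 h1

theorem section_eq (hlen : ∀ g v, (ρ g v).length = v.length)
    (hss : ∀ g x, ∃ y h, ∀ w, ρ g (x :: w) = y :: ρ h w) (g : G) (x y : Fin 2)
    (hxy : ρ g [x] = [y]) : ∃ h, ∀ w, ρ g (x :: w) = y :: ρ h w := by
  obtain ⟨y', h, hw⟩ := hss g x
  have h1 := hw []
  have h2 : ρ h [] = [] := List.length_eq_zero_iff.1 (by rw [hlen]; rfl)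
  rw [h2, hxy] at h1
  have h3 : y = y' := by
    simpa using h1
  exact ⟨h, fun w => by rw [hw w, h3]⟩

end TREEaux

open TREEaux

theorem tree : TREEStmt := by
  intro G _ _ hP hS
  obtain ⟨ρ, hlen, -, hss, hinj, hop, htr⟩ := hS
  have := hP.topGroup
  have := hP.compact
  have := hP.hausdorff
  have hsec : ∀ g : stab0 ρ, ∃ h : G, ∀ w, ρ (g : G) (0 :: w) = 0 :: ρ h w := fun g =>
    section_eq ρ hlen hss g 0 0 g.2
  choose φ₀ hφ₀ using hsec
  have huniq : ∀ a b : G, (∀ w, ρ a w = ρ b w) → a = b := fun a b hab =>
    hinj (Equiv.ext hab)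
  let φ : stab0 ρ →* G := MonoidHom.mk' φ₀ (by
    intro a b
    apply huniq
    intro w
    have h1 := hφ₀ (a * b) w
    rw [Subgroup.coe_mul, mul_app, hφ₀ b, hφ₀ a] at h1
    rw [mul_app]
    have h2 := (List.cons.inj h1).2
    exact h2.symm)
  have hφ : ∀ (g : stab0 ρ) w, ρ (g : G) (0 :: w) = 0 :: ρ (φ g) w := hφ₀
  have hopen : IsOpen (stab0 ρ : Set G) := hop [0]
  refine ⟨stab0 ρ, φ, hopen, ?_, ?_, ?_⟩
  · -- index
    rw [Subgroup.index_eq_two_iff]
    obtain ⟨t, ht⟩ := htr 0 1
    refine ⟨t, fun b => ?_⟩
    rw [mem_stab0, mem_stab0, mul_app, ht]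
    obtain ⟨y0, hy0⟩ := level_one ρ hlen b 0
    obtain ⟨y1, hy1⟩ := level_one ρ hlen b 1
    have hne : y0 ≠ y1 := by
      intro h
      rw [h, ← hy1] at hy0
      have := (ρ b).injective hy0
      simp at this
    rw [hy0, hy1]
    have e0 : ([y0] = [(0 : Fin 2)]) ↔ y0 = 0 := by simp
    have e1 : ([y1] = [(0 : Fin 2)]) ↔ y1 = 0 := by simp
    rw [e0, e1]
    revert hne
    clear hy0 hy1 e0 e1
    revert y0 y1
    decide
  · -- continuity
    have hbasis : ∀ W ∈ 𝓝 (1 : G), ∃ n, fixn ρ n ⊆ W := by
      intro W hW
      obtain ⟨V, hVW, hV, h1V⟩ := mem_nhds_iff.1 hW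
      have hclosed : ∀ v : List (Fin 2), IsClosed {g | ρ g v = v} := by
        intro v
        let S : Subgroup G :=
          { carrier := {g | ρ g v = v}
            mul_mem' := by
              intro a b ha hb
              simp only [Set.mem_ofPred_eq] at *
              rw [mul_app, hb, ha]
            one_mem' := by
              simp only [Set.mem_ofPred_eq, map_one]
              rfl
            inv_mem' := by
              intro a ha
              simp only [Set.mem_ofPred_eq] at *
              conv_lhs => rw [← ha]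
              rw [inv_app_self] }
        exact S.isClosed_of_isOpen (hop v)
      have hfc : ∀ n, IsClosed (fixn ρ n) := by
        intro n
        have : fixn ρ n = ⋂ v : List (Fin 2), ⋂ _ : v.length ≤ n, {g | ρ g v = v} := by
          ext g
          simp [fixn]
        rw [this]
        exact isClosed_iInter fun v => isClosed_iInter fun _ => hclosed v
      by_contra Hn
      push Not at Hn
      have hK : ∀ n, (fixn ρ n ∩ Vᶜ).Nonempty := by
        intro n
        by_contra hne
        rw [Set.not_nonempty_iff_eq_empty] at hne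
        apply Hn n
        intro g hg
        by_contra hgW
        have : g ∈ fixn ρ n ∩ Vᶜ := ⟨hg, fun h => hgW (hVW h)⟩
        rw [hne] at this
        exact this
      have hmono : ∀ n, fixn ρ (n + 1) ∩ Vᶜ ⊆ fixn ρ n ∩ Vᶜ := by
        intro n g hg
        exact ⟨fun v hv => hg.1 v (by omega), hg.2⟩
      obtain ⟨g, hg⟩ := IsCompact.nonempty_iInter_of_sequence_nonempty_isCompact_isClosed
        (fun n => fixn ρ n ∩ Vᶜ) hmono hK
        ((hfc 0).inter hV.isClosed_compl).isCompact
        (fun n => (hfc n).inter hV.isClosed_compl)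
      rw [Set.mem_iInter] at hg
      have hg1 : g = 1 := by
        apply huniq
        intro w
        rw [(hg w.length).1 w le_rfl, map_one]
        rfl
      exact (hg 0).2 (hg1 ▸ h1V)
    apply continuous_of_continuousAt_one φ
    intro W hW
    rw [map_one] at hW
    obtain ⟨n, hn⟩ := hbasis W hW
    rw [Filter.mem_map]
    have hfin : {v : List (Fin 2) | v.length ≤ n + 1}.Finite := by
      have := List.finite_length_le (Fin 2) (n + 1)
      exact this
    have hopn : IsOpen (⋂ v ∈ {v : List (Fin 2) | v.length ≤ n + 1}, {g : G | ρ g v = v}) :=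
      hfin.isOpen_biInter fun v _ => hop v
    have hmem : (Subtype.val : stab0 ρ → G) ⁻¹'
        (⋂ v ∈ {v : List (Fin 2) | v.length ≤ n + 1}, {g : G | ρ g v = v}) ∈ 𝓝 (1 : stab0 ρ) := by
      refine (hopn.preimage continuous_subtype_val).mem_nhds ?_
      simp only [Set.mem_preimage, Set.mem_iInter, Set.mem_ofPred_eq, OneMemClass.coe_one, map_one]
      intro v _
      rfl
    refine Filter.mem_of_superset hmem ?_
    intro g hg
    apply hn
    intro v hv
    simp only [Set.mem_preimage, Set.mem_iInter, Set.mem_ofPred_eq] at hg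
    have h1 := hg (0 :: v) (by simp; omega)
    rw [hφ] at h1
    exact (List.cons.inj h1).2
  · -- core
    intro N hN hNn hNφ
    obtain ⟨t, ht⟩ := htr 1 0
    obtain ⟨s, hs⟩ := section_eq ρ hlen hss t 1 0 ht
    have key : ∀ n : ℕ, ∀ g ∈ N, ∀ v : List (Fin 2), v.length = n → ρ g v = v := by
      intro n
      induction n with
      | zero =>
        intro g _ v hv
        rw [List.length_eq_zero_iff] at hv
        subst hv
        exact List.length_eq_zero_iff.1 (by rw [hlen]; rfl)
      | succ n ih =>
        intro g hg v hv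
        cases v with
        | nil => simp at hv
        | cons x w =>
          have hw : w.length = n := by simpa using hv
          have hx : x = 0 ∨ x = 1 := by
            rcases x with ⟨_ | _ | k, hk⟩
            · left; rfl
            · right; rfl
            · omega
          rcases hx with hx | hx
          · subst hx
            have h1 := hφ ⟨g, hN hg⟩ w
            simp only at h1
            rw [h1, ih _ (hNφ g hg) w hw]
          · subst hx
            have hg' : t * g * t⁻¹ ∈ N := hNn.conj_mem g hg t
            have h1 := hφ ⟨t * g * t⁻¹, hN hg'⟩ (ρ s w)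
            simp only at h1
            rw [ih _ (hNφ _ hg') (ρ s w) (by rw [hlen, hw])] at h1
            rw [← hs w, mul_app, inv_app_self, mul_app] at h1
            exact (ρ t).injective h1
    rw [eq_bot_iff]
    intro g hg
    rw [Subgroup.mem_bot]
    apply huniq
    intro w
    rw [key w.length g hg w rfl, map_one]
    rfl

end Pool.Agent.H5.Dem
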